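import Mathlib

namespace Pool.Agent.CommMaps

open Set

/-- a continuous self-map of an interval that moves the ends inwards has a fixed point -/
lemma exists_fix {h : ℝ → ℝ} {a b : ℝ} (hab : a ≤ b) (hc : ContinuousOn h (Icc a b))
    (h1 : a ≤ h a) (h2 : h b ≤ b) : ∃ z ∈ Icc a b, h z = z := by
  have hcont : ContinuousOn (fun y => h y - y) (Icc a b) := hc.sub continuousOn_id
  obtain ⟨z, hz, hz0⟩ := intermediate_value_Icc' hab hcont
    (show (0 : ℝ) ∈ Icc (h b - b) (h a - a) from ⟨by linarith, by linarith⟩)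
  refine ⟨z, hz, ?_⟩
  have : h z - z = 0 := hz0
  linarith

lemma isClosed_fix {h : ℝ → ℝ} {a b : ℝ} (hc : ContinuousOn h (Icc a b)) :
    IsClosed {y | y ∈ Icc a b ∧ h y = y} := by
  have hcont : ContinuousOn (fun y => h y - y) (Icc a b) := hc.sub continuousOn_id
  have h1 := hcont.preimage_isClosed_of_isClosed isClosed_Icc (isClosed_singleton (x := (0 : ℝ)))
  convert! h1 using 1
  ext y
  simp only [mem_setOf_eq, mem_inter_iff, mem_preimage, mem_singleton_iff, sub_eq_zero]

lemma caseA {f g : ℝ → ℝ} {u v : ℝ}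
    (hf : ContinuousOn f (Icc u v)) (hg : ContinuousOn g (Icc u v))
    (hgK : MapsTo g (Icc u v) (Icc u v))
    (hcomm : ∀ y ∈ Icc u v, f (g y) = g (f y)) {x : ℝ} (hx : x ∈ Icc u v) (hfx : f x = x)
    (hmono : StrictMonoOn f (Icc u v) ∨ StrictAntiOn f (Icc u v)) :
    ∃ w ∈ Icc u v, f w = w ∧ g w = w := by
  rcases hmono with hm | ha
  · have hFc := isClosed_fix hf
    have hFcomp : IsCompact {y | y ∈ Icc u v ∧ f y = y} :=
      isCompact_Icc.of_isClosed_subset hFc fun y hy => hy.1
    have hFne : {y | y ∈ Icc u v ∧ f y = y}.Nonempty := ⟨x, hx, hfx⟩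
    obtain ⟨a, haF, hamin⟩ := hFcomp.exists_isLeast hFne
    obtain ⟨b, hbF, hbmax⟩ := hFcomp.exists_isGreatest hFne
    have hgF : ∀ y, y ∈ Icc u v ∧ f y = y → g y ∈ Icc u v ∧ f (g y) = g y :=
      fun y hy => ⟨hgK hy.1, by rw [hcomm y hy.1, hy.2]⟩
    have hab : a ≤ b := hamin hbF
    have hsub : Icc a b ⊆ Icc u v := Icc_subset_Icc haF.1.1 hbF.1.2
    obtain ⟨z, hz, hgz⟩ := exists_fix hab (hg.mono hsub) (hamin (hgF a haF)) (hbmax (hgF b hbF))
    have hEc := isClosed_fix (hg.mono hsub)
    have hEcomp : IsCompact {y | y ∈ Icc a b ∧ g y = y} :=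
      isCompact_Icc.of_isClosed_subset hEc fun y hy => hy.1
    obtain ⟨e, heE, hemin⟩ := hEcomp.exists_isLeast ⟨z, hz, hgz⟩
    have hfE : ∀ y, y ∈ Icc a b ∧ g y = y → f y ∈ Icc a b ∧ g (f y) = f y := by
      intro y hy
      refine ⟨⟨?_, ?_⟩, ?_⟩
      · have := hm.monotoneOn (hsub (left_mem_Icc.mpr hab)) (hsub hy.1) hy.1.1
        rwa [haF.2] at this
      · have := hm.monotoneOn (hsub hy.1) (hsub (right_mem_Icc.mpr hab)) hy.1.2
        rwa [hbF.2] at this
      · rw [← hcomm y (hsub hy.1), hy.2]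
    set S : Set ℝ := {y | (y ∈ Icc a b ∧ g y = y) ∧ y ≤ f y} with hS
    have hSne : S.Nonempty := ⟨e, heE, hemin (hfE e heE)⟩
    have hSbdd : BddAbove S := ⟨b, fun y hy => hy.1.1.2⟩
    have hwE : sSup S ∈ Icc a b ∧ g (sSup S) = sSup S := by
      have h1 := csSup_mem_closure hSne hSbdd
      have h2 : closure S ⊆ {y | y ∈ Icc a b ∧ g y = y} :=
        closure_minimal (fun y hy => hy.1) hEc
      exact h2 h1
    have hle : sSup S ≤ f (sSup S) := by
      refine csSup_le hSne fun y hy => ?_
      exact hy.2.trans (hm.monotoneOn (hsub hy.1.1) (hsub hwE.1) (le_csSup hSbdd hy))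
    have hge : f (sSup S) ≤ sSup S := by
      refine le_csSup hSbdd ⟨hfE _ hwE, ?_⟩
      exact hm.monotoneOn (hsub hwE.1) (hsub (hfE _ hwE).1) hle
    exact ⟨sSup S, hsub hwE.1, le_antisymm hge hle, hwE.2⟩
  · refine ⟨x, hx, hfx, ?_⟩
    have h1 : g x ∈ Icc u v := hgK hx
    have h2 : f (g x) = g x := by rw [hcomm x hx, hfx]
    rcases lt_trichotomy (g x) x with h | h | h
    · have := ha h1 hx h
      rw [h2, hfx] at this
      exact absurd h (not_lt.mpr this.le)
    · exact h
    · have := ha hx h1 h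
      rw [h2, hfx] at this
      exact absurd h (not_lt.mpr this.le)

lemma exists_lower (D : Finset ℝ) {p x : ℝ} (hpx : p ≤ x) :
    ∃ u, p ≤ u ∧ u ≤ x ∧ (u = p ∨ u ∈ D) ∧ ∀ c ∈ D, c < x → c ≤ u := by
  classical
  have hne : (insert p (D.filter (· < x))).Nonempty := Finset.insert_nonempty _ _
  refine ⟨(insert p (D.filter (· < x))).max' hne,
    Finset.le_max' _ _ (Finset.mem_insert_self _ _), ?_, ?_, ?_⟩
  · refine Finset.max'_le _ _ _ fun y hy => ?_
    rcases Finset.mem_insert.mp hy with rfl | hy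
    · exact hpx
    · exact (Finset.mem_filter.mp hy).2.le
  · rcases Finset.mem_insert.mp (Finset.max'_mem _ hne) with h | h
    · exact Or.inl h
    · exact Or.inr (Finset.mem_filter.mp h).1
  · intro c hc hcx
    exact Finset.le_max' _ _ (Finset.mem_insert_of_mem (Finset.mem_filter.mpr ⟨hc, hcx⟩))

lemma exists_upper (D : Finset ℝ) {q x : ℝ} (hpx : x ≤ q) :
    ∃ v, v ≤ q ∧ x ≤ v ∧ (v = q ∨ v ∈ D) ∧ ∀ c ∈ D, x < c → v ≤ c := by
  classical
  have hne : (insert q (D.filter (x < ·))).Nonempty := Finset.insert_nonempty _ _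
  refine ⟨(insert q (D.filter (x < ·))).min' hne,
    Finset.min'_le _ _ (Finset.mem_insert_self _ _), ?_, ?_, ?_⟩
  · refine Finset.le_min' _ _ _ fun y hy => ?_
    rcases Finset.mem_insert.mp hy with rfl | hy
    · exact hpx
    · exact (Finset.mem_filter.mp hy).2.le
  · rcases Finset.mem_insert.mp (Finset.min'_mem _ hne) with h | h
    · exact Or.inl h
    · exact Or.inr (Finset.mem_filter.mp h).1
  · intro c hc hcx
    exact Finset.min'_le _ _ (Finset.mem_insert_of_mem (Finset.mem_filter.mpr ⟨hc, hcx⟩))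

theorem core {f g : ℝ → ℝ} {p q : ℝ} (hpq : p < q)
    (hf : ContinuousOn f (Icc p q)) (hg : ContinuousOn g (Icc p q))
    (hfL : MapsTo f (Icc p q) (Icc p q)) (hgL : MapsTo g (Icc p q) (Icc p q))
    (hsurj : ∀ y ∈ Icc p q, ∃ x ∈ Icc p q, g x = y)
    (hcomm : ∀ y ∈ Icc p q, f (g y) = g (f y)) (C : Finset ℝ) (hC : ∀ c ∈ C, c ∈ Icc p q)
    (hback : ∀ x ∈ Icc p q, g x ∈ C → x ∈ C)
    (hmono : ∀ u v, p ≤ u → u ≤ v → v ≤ q → (∀ c ∈ C, ¬ (u < c ∧ c < v)) →
      StrictMonoOn f (Icc u v) ∨ StrictAntiOn f (Icc u v)) :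
    ∃ w ∈ Icc p q, f w = w ∧ g w = w := by
  classical
  have hp : p ∈ Icc p q := left_mem_Icc.mpr hpq.le
  have hq : q ∈ Icc p q := right_mem_Icc.mpr hpq.le
  -- `g` permutes `C`
  have hCs : C ⊆ C.image g := by
    intro c hc
    obtain ⟨x, hx, hgx⟩ := hsurj c (hC c hc)
    exact Finset.mem_image.mpr ⟨x, hback x hx (by rw [hgx]; exact hc), hgx⟩
  have hCi : C = C.image g := Finset.eq_of_subset_of_card_le hCs Finset.card_image_le
  have hmaps : ∀ c ∈ C, g c ∈ C := by
    intro c hc
    rw [hCi]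
    exact Finset.mem_image_of_mem g hc
  have hinj : ∀ c ∈ C, ∀ d ∈ C, g c = g d → c = d := by
    have : (C.image g).card = C.card := by rw [← hCi]
    rw [Finset.card_image_iff] at this
    intro c hc d hd h
    exact this hc hd h
  -- step 2
  have hne : ∀ c ∈ C, ∀ x ∈ Icc p q, x ≠ c → g x ≠ g c := by
    intro c hc x hx hxc h
    exact hxc (hinj x (hback x hx (by rw [h]; exact hmaps c hc)) c hc h)
  -- step 3
  have hside1 : ∀ c ∈ C, ∀ x ∈ Icc p q, ∀ y ∈ Icc p q, x < c → y < c → g x < g c → g y < g c := by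
    intro c hc x hx y hy hxc hyc hgx
    by_contra hcon
    have hgy : g c < g y := lt_of_le_of_ne (not_lt.mp hcon) (hne c hc y hy hyc.ne).symm
    rcases le_total x y with hxy | hxy
    · obtain ⟨z, hz, hgz⟩ := intermediate_value_Icc hxy
        (hg.mono (Icc_subset_Icc hx.1 hy.2)) (show g c ∈ Icc (g x) (g y) from ⟨hgx.le, hgy.le⟩)
      exact hne c hc z ⟨hx.1.trans hz.1, hz.2.trans hy.2⟩ (hz.2.trans_lt hyc).ne hgz
    · obtain ⟨z, hz, hgz⟩ := intermediate_value_Icc' hxy
        (hg.mono (Icc_subset_Icc hy.1 hx.2)) (show g c ∈ Icc (g x) (g y) from ⟨hgx.le, hgy.le⟩)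
      exact hne c hc z ⟨hy.1.trans hz.1, hz.2.trans hx.2⟩ (hz.2.trans_lt hxc).ne hgz
  have hside2 : ∀ c ∈ C, ∀ x ∈ Icc p q, ∀ y ∈ Icc p q, c < x → c < y → g x < g c → g y < g c := by
    intro c hc x hx y hy hxc hyc hgx
    by_contra hcon
    have hgy : g c < g y := lt_of_le_of_ne (not_lt.mp hcon) (hne c hc y hy hyc.ne').symm
    rcases le_total x y with hxy | hxy
    · obtain ⟨z, hz, hgz⟩ := intermediate_value_Icc hxy
        (hg.mono (Icc_subset_Icc hx.1 hy.2)) (show g c ∈ Icc (g x) (g y) from ⟨hgx.le, hgy.le⟩)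
      exact hne c hc z ⟨hx.1.trans hz.1, hz.2.trans hy.2⟩ (hxc.trans_le hz.1).ne' hgz
    · obtain ⟨z, hz, hgz⟩ := intermediate_value_Icc' hxy
        (hg.mono (Icc_subset_Icc hy.1 hx.2)) (show g c ∈ Icc (g x) (g y) from ⟨hgx.le, hgy.le⟩)
      exact hne c hc z ⟨hy.1.trans hz.1, hz.2.trans hx.2⟩ (hyc.trans_le hz.1).ne' hgz
  obtain ⟨xp, hxp, hgxp⟩ := hsurj p hp
  obtain ⟨xq, hxq, hgxq⟩ := hsurj q hq
  -- step 4
  have hendp : p ∈ C → g p = p ∨ g p = q := by
    intro hpC
    by_contra hcon
    push Not at hcon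
    have h1 : p < g p := lt_of_le_of_ne (hgL hp).1 (Ne.symm hcon.1)
    have h2 : g p < q := lt_of_le_of_ne (hgL hp).2 hcon.2
    have h3 : p < xp := lt_of_le_of_ne hxp.1 (by rintro rfl; exact hcon.1 hgxp)
    have h4 : p < xq := lt_of_le_of_ne hxq.1 (by rintro rfl; exact hcon.2 hgxq)
    have := hside2 p hpC xp hxp xq hxq h3 h4 (by rw [hgxp]; exact h1)
    rw [hgxq] at this
    exact absurd this (not_lt.mpr h2.le)
  have hendq : q ∈ C → g q = p ∨ g q = q := by
    intro hqC
    by_contra hcon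
    push Not at hcon
    have h1 : p < g q := lt_of_le_of_ne (hgL hq).1 (Ne.symm hcon.1)
    have h2 : g q < q := lt_of_le_of_ne (hgL hq).2 hcon.2
    have h3 : xp < q := lt_of_le_of_ne hxp.2 (by rintro rfl; exact hcon.1 hgxp)
    have h4 : xq < q := lt_of_le_of_ne hxq.2 (by rintro rfl; exact hcon.2 hgxq)
    have := hside1 q hqC xp hxp xq hxq h3 h4 (by rw [hgxp]; exact h1)
    rw [hgxq] at this
    exact absurd this (not_lt.mpr h2.le)
  set D : Finset ℝ := C.filter fun c => p < c ∧ c < q with hD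
  have hDC : ∀ c ∈ D, c ∈ C := fun c hc => (Finset.mem_filter.mp hc).1
  have hDi : ∀ c ∈ D, p < c ∧ c < q := fun c hc => (Finset.mem_filter.mp hc).2
  -- step 5
  have hDmaps : ∀ c ∈ D, g c ∈ D := by
    intro c hc
    have hcC := hDC c hc
    have hci := hDi c hc
    refine Finset.mem_filter.mpr ⟨hmaps c hcC, ?_, ?_⟩
    · refine lt_of_le_of_ne (hgL (hC c hcC)).1 fun h => ?_
      have hpC : p ∈ C := by rw [h]; exact hmaps c hcC
      rcases hendp hpC with h1 | h1
      · exact hci.1.ne (hinj p hpC c hcC (by rw [h1]; exact h))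
      · have hqC : q ∈ C := by rw [← h1]; exact hmaps p hpC
        rcases hendq hqC with h2 | h2
        · exact hci.2.ne' (hinj q hqC c hcC (by rw [h2]; exact h))
        · exact hpq.ne' (hinj q hqC p hpC (by rw [h1, h2]))
    · refine lt_of_le_of_ne (hgL (hC c hcC)).2 fun h => ?_
      have hqC : q ∈ C := by rw [← h]; exact hmaps c hcC
      rcases hendq hqC with h1 | h1
      · have hpC : p ∈ C := by rw [← h1]; exact hmaps q hqC
        rcases hendp hpC with h2 | h2
        · exact hpq.ne' (hinj q hqC p hpC (by rw [h1, h2]))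
        · exact hci.1.ne (hinj p hpC c hcC (by rw [h2, h]))
      · exact hci.2.ne' (hinj q hqC c hcC (by rw [h1, h]))
  have hDsurj : ∀ d ∈ D, ∃ e ∈ D, g e = d := by
    intro d hd
    obtain ⟨e, he, hge⟩ := hsurj d (hC d (hDC d hd))
    have heC : e ∈ C := hback e he (by rw [hge]; exact hDC d hd)
    have hdi := hDi d hd
    refine ⟨e, Finset.mem_filter.mpr ⟨heC, ?_, ?_⟩, hge⟩
    · refine lt_of_le_of_ne he.1 fun h => ?_
      subst h
      rcases hendp heC with h1 | h1
      · rw [hge] at h1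
        exact hdi.1.ne' h1
      · rw [hge] at h1
        exact hdi.2.ne h1
    · refine lt_of_le_of_ne he.2 fun h => ?_
      subst h
      rcases hendq heC with h1 | h1
      · rw [hge] at h1
        exact hdi.1.ne' h1
      · rw [hge] at h1
        exact hdi.2.ne h1
  -- step 6: orientation
  have horient : ∀ c ∈ D,
      ((∀ x ∈ Icc p q, x < c → g x < g c) ∧ (∀ x ∈ Icc p q, c < x → g c < g x)) ∨
      ((∀ x ∈ Icc p q, x < c → g c < g x) ∧ (∀ x ∈ Icc p q, c < x → g x < g c)) := by
    intro c hc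
    have hcC := hDC c hc
    have hgc := hDi _ (hDmaps c hc)
    have h1 : g xp < g c := by rw [hgxp]; exact hgc.1
    have h2 : g c < g xq := by rw [hgxq]; exact hgc.2
    have hxpc : xp ≠ c := by rintro rfl; exact lt_irrefl _ h1
    have hxqc : xq ≠ c := by rintro rfl; exact lt_irrefl _ h2
    rcases lt_or_gt_of_ne hxpc with h3 | h3
    · rcases lt_or_gt_of_ne hxqc with h4 | h4
      · exact absurd (hside1 c hcC xp hxp xq hxq h3 h4 h1) (not_lt.mpr h2.le)
      · left
        refine ⟨fun x hx hxc => hside1 c hcC xp hxp x hx h3 hxc h1, fun x hx hxc => ?_⟩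
        by_contra hcon
        have h5 : g x < g c := lt_of_le_of_ne (not_lt.mp hcon) (hne c hcC x hx hxc.ne')
        exact absurd (hside2 c hcC x hx xq hxq hxc h4 h5) (not_lt.mpr h2.le)
    · rcases lt_or_gt_of_ne hxqc with h4 | h4
      · right
        refine ⟨fun x hx hxc => ?_, fun x hx hxc => hside2 c hcC xp hxp x hx h3 hxc h1⟩
        by_contra hcon
        have h5 : g x < g c := lt_of_le_of_ne (not_lt.mp hcon) (hne c hcC x hx hxc.ne)
        exact absurd (hside1 c hcC x hx xq hxq hxc h4 h5) (not_lt.mpr h2.le)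
      · exact absurd (hside2 c hcC xp hxp xq hxq h3 h4 h1) (not_lt.mpr h2.le)
  -- step 7
  rcases D.eq_empty_or_nonempty with hDe | ⟨c0, hc0⟩
  · obtain ⟨x, hx, hfx⟩ := exists_fix hpq.le hf (hfL hp).1 (hfL hq).2
    refine caseA hf hg hgL hcomm hx hfx (hmono p q le_rfl hpq.le le_rfl fun c hc h => ?_)
    have : c ∈ D := Finset.mem_filter.mpr ⟨hc, h⟩
    rw [hDe] at this
    exact absurd this (Finset.notMem_empty c)
  have hnoC : ∀ (D' : Finset ℝ) (x u v : ℝ), D' = D → x ∉ D' → p ≤ u → v ≤ q →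
      (∀ c ∈ D', c < x → c ≤ u) → (∀ c ∈ D', x < c → v ≤ c) → ∀ c ∈ C, ¬ (u < c ∧ c < v) := by
    rintro _ x u v rfl hx hpu hvq hu hv c hc ⟨h1, h2⟩
    have hcD : c ∈ D := Finset.mem_filter.mpr ⟨hc, hpu.trans_lt h1, h2.trans_le hvq⟩
    rcases lt_trichotomy c x with h | h | h
    · exact absurd (hu c hcD h) (not_le.mpr h1)
    · rw [h] at hcD
      exact hx hcD
    · exact absurd (hv c hcD h) (not_le.mpr h2)
  rcases horient c0 hc0 with h0 | h0
  · -- orientation preserving
    have hplus : ∀ d ∈ D, (∀ x ∈ Icc p q, x < d → g x < g d) ∧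
        (∀ x ∈ Icc p q, d < x → g d < g x) := by
      intro d hd
      rcases horient d hd with h | h
      · exact h
      · exfalso
        rcases lt_trichotomy c0 d with h1 | h1 | h1
        · exact absurd (h0.2 d (hC d (hDC d hd)) h1)
            (not_lt.mpr (h.1 c0 (hC _ (hDC _ hc0)) h1).le)
        · subst h1
          obtain ⟨h2, h3⟩ := hDi c0 hc0
          exact absurd (h0.1 p hp h2) (not_lt.mpr (h.1 p hp h2).le)
        · exact absurd (h0.1 d (hC d (hDC d hd)) h1)
            (not_lt.mpr (h.2 c0 (hC _ (hDC _ hc0)) h1).le)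
    have hfixD : ∀ d ∈ D, g d = d := by
      by_contra hcon
      push Not at hcon
      obtain ⟨d1, hd1, hd1'⟩ := hcon
      obtain ⟨d, hdm, hmin⟩ := (D.filter fun d => g d ≠ d).exists_minimal
        ⟨d1, Finset.mem_filter.mpr ⟨hd1, hd1'⟩⟩
      obtain ⟨hd, hgd⟩ := Finset.mem_filter.mp hdm
      have hlow : ∀ e ∈ D, e < d → g e = e := by
        intro e he hed
        by_contra hne'
        exact absurd (hmin (Finset.mem_filter.mpr ⟨he, hne'⟩) hed.le) (not_le.mpr hed)
      rcases lt_or_gt_of_ne hgd with h1 | h1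
      · have h2 := hlow (g d) (hDmaps d hd) h1
        exact h1.ne (hinj _ (hDC _ (hDmaps d hd)) _ (hDC d hd) h2)
      · obtain ⟨e, he, hge⟩ := hDsurj d hd
        rcases lt_trichotomy e d with h2 | h2 | h2
        · rw [hlow e he h2] at hge
          exact h2.ne hge
        · rw [h2] at hge
          exact hgd hge
        · have := (hplus d hd).2 e (hC e (hDC e he)) h2
          rw [hge] at this
          exact absurd h1 (not_lt.mpr this.le)
    obtain ⟨x, hx, hfx⟩ := exists_fix hpq.le hf (hfL hp).1 (hfL hq).2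
    by_cases hxD : x ∈ D
    · exact ⟨x, hx, hfx, hfixD x hxD⟩
    obtain ⟨u, hpu, hux, hu, hu'⟩ := exists_lower D hx.1
    obtain ⟨v, hvq, hxv, hv, hv'⟩ := exists_upper D hx.2
    have hsub : Icc u v ⊆ Icc p q := Icc_subset_Icc hpu hvq
    have hgK : MapsTo g (Icc u v) (Icc u v) := by
      intro y hy
      constructor
      · rcases hu with rfl | huD
        · exact (hgL (hsub hy)).1
        · rcases eq_or_lt_of_le hy.1 with h | h
          · rw [← h, hfixD u huD]
          · have := (hplus u huD).2 y (hsub hy) h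
            rw [hfixD u huD] at this
            exact this.le
      · rcases hv with rfl | hvD
        · exact (hgL (hsub hy)).2
        · rcases eq_or_lt_of_le hy.2 with h | h
          · rw [h, hfixD v hvD]
          · have := (hplus v hvD).1 y (hsub hy) h
            rw [hfixD v hvD] at this
            exact this.le
    obtain ⟨w, hw, h1, h2⟩ := caseA (hf.mono hsub) (hg.mono hsub) hgK
      (fun y hy => hcomm y (hsub hy)) ⟨hux, hxv⟩ hfx
      (hmono u v hpu (hux.trans hxv) hvq (hnoC D x u v rfl hxD hpu hvq hu' hv'))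
    exact ⟨w, hsub hw, h1, h2⟩
  · -- orientation reversing
    have hminus : ∀ d ∈ D, (∀ x ∈ Icc p q, x < d → g d < g x) ∧
        (∀ x ∈ Icc p q, d < x → g x < g d) := by
      intro d hd
      rcases horient d hd with h | h
      · exfalso
        rcases lt_trichotomy c0 d with h1 | h1 | h1
        · exact absurd (h0.2 d (hC d (hDC d hd)) h1)
            (not_lt.mpr (h.1 c0 (hC _ (hDC _ hc0)) h1).le)
        · subst h1
          obtain ⟨h2, h3⟩ := hDi c0 hc0
          exact absurd (h0.1 p hp h2) (not_lt.mpr (h.1 p hp h2).le)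
        · exact absurd (h0.1 d (hC d (hDC d hd)) h1)
            (not_lt.mpr (h.2 c0 (hC _ (hDC _ hc0)) h1).le)
      · exact h
    obtain ⟨z, hz, hgz⟩ := exists_fix hpq.le hg (hgL hp).1 (hgL hq).2
    by_cases hzD : z ∈ D
    · refine ⟨z, hz, ?_, hgz⟩
      have h1 : g (f z) = f z := by rw [← hcomm z hz, hgz]
      rcases lt_trichotomy (f z) z with h | h | h
      · have := (hminus z hzD).1 (f z) (hfL hz) h
        rw [h1, hgz] at this
        exact absurd h (not_lt.mpr this.le)
      · exact h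
      · have := (hminus z hzD).2 (f z) (hfL hz) h
        rw [h1, hgz] at this
        exact absurd h (not_lt.mpr this.le)
    obtain ⟨u, hpu, huz, hu, hu'⟩ := exists_lower D hz.1
    obtain ⟨v, hvq, hzv, hv, hv'⟩ := exists_upper D hz.2
    have hsub : Icc u v ⊆ Icc p q := Icc_subset_Icc hpu hvq
    have hgK : MapsTo g (Icc u v) (Icc u v) := by
      intro y hy
      constructor
      · rcases hu with rfl | huD
        · exact (hgL (hsub hy)).1
        · obtain ⟨w, hw, hgw⟩ := hDsurj u huD
          have hwz : z < w := by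
            rcases lt_trichotomy w z with h | h | h
            · have := (hminus w hw).2 z hz h
              rw [hgz, hgw] at this
              exact absurd this (not_lt.mpr huz)
            · rw [h] at hw
              exact absurd hw hzD
            · exact h
          have hvw := hv' w hw hwz
          rcases eq_or_lt_of_le (hy.2.trans hvw) with h | h
          · rw [h, hgw]
          · have := (hminus w hw).1 y (hsub hy) h
            rw [hgw] at this
            exact this.le
      · rcases hv with rfl | hvD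
        · exact (hgL (hsub hy)).2
        · obtain ⟨w, hw, hgw⟩ := hDsurj v hvD
          have hwz : w < z := by
            rcases lt_trichotomy w z with h | h | h
            · exact h
            · rw [h] at hw
              exact absurd hw hzD
            · have := (hminus w hw).1 z hz h
              rw [hgz, hgw] at this
              exact absurd this (not_lt.mpr hzv)
          have hwu := hu' w hw hwz
          rcases eq_or_lt_of_le (hwu.trans hy.1) with h | h
          · rw [← h, hgw]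
          · have := (hminus w hw).2 y (hsub hy) h
            rw [hgw] at this
            exact this.le
    -- fixed points of `g`
    have hGcomp : IsCompact {y | y ∈ Icc p q ∧ g y = y} :=
      isCompact_Icc.of_isClosed_subset (isClosed_fix hg) fun y hy => hy.1
    obtain ⟨a, haG, hamin⟩ := hGcomp.exists_isLeast ⟨z, hz, hgz⟩
    obtain ⟨b, hbG, hbmax⟩ := hGcomp.exists_isGreatest ⟨z, hz, hgz⟩
    have hfG : ∀ y, y ∈ Icc p q ∧ g y = y → f y ∈ Icc p q ∧ g (f y) = f y :=
      fun y hy => ⟨hfL hy.1, by rw [← hcomm y hy.1, hy.2]⟩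
    have hGK : ∀ y, y ∈ Icc p q ∧ g y = y → y ∈ Icc u v := by
      intro y hy
      constructor
      · rcases hu with rfl | huD
        · exact hy.1.1
        · by_contra hcon
          push Not at hcon
          have h1 := (hminus u huD).1 y hy.1 hcon
          have hzu : u < z := lt_of_le_of_ne huz (by rintro rfl; exact hzD huD)
          have h2 := (hminus u huD).2 z hz hzu
          rw [hy.2] at h1
          rw [hgz] at h2
          linarith
      · rcases hv with rfl | hvD
        · exact hy.1.2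
        · by_contra hcon
          push Not at hcon
          have h1 := (hminus v hvD).2 y hy.1 hcon
          have hzu : z < v := lt_of_le_of_ne hzv (by rintro rfl; exact hzD hvD)
          have h2 := (hminus v hvD).1 z hz hzu
          rw [hy.2] at h1
          rw [hgz] at h2
          linarith
    have hab : a ≤ b := hamin hbG
    have hab' : Icc a b ⊆ Icc u v := Icc_subset_Icc (hGK a haG).1 (hGK b hbG).2
    obtain ⟨x, hx, hfx⟩ := exists_fix hab ((hf.mono hsub).mono hab') (hamin (hfG a haG))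
      (hbmax (hfG b hbG))
    obtain ⟨w, hw, h1, h2⟩ := caseA (hf.mono hsub) (hg.mono hsub) hgK
      (fun y hy => hcomm y (hsub hy)) (hab' hx) hfx
      (hmono u v hpu (huz.trans hzv) hvq (hnoC D z u v rfl hzD hpu hvq hu' hv'))
    exact ⟨w, hsub hw, h1, h2⟩

end Pool.Agent.CommMaps
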