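import Mathlib

namespace Pool.Agent.CommMaps

/-- The critical points in `[0,1]` of a map `f` of `[0,1]` (one-sided derivative at the ends). -/
def Crit (f : ℝ → ℝ) : Set ℝ :=
  {x | x ∈ Set.Icc (0 : ℝ) 1 ∧ derivWithin f (Set.Icc (0 : ℝ) 1) x = 0}

end Pool.Agent.CommMaps
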