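import Mathlib
import Pool.Agent.CommMaps.Core

namespace Pool.Agent.CommMaps

open Set

/-- a minimal invariant interval -/
lemma exists_minimal_interval {f g : ℝ → ℝ}
    (hf : MapsTo f (Icc (0 : ℝ) 1) (Icc (0 : ℝ) 1)) (hg : MapsTo g (Icc (0 : ℝ) 1) (Icc (0 : ℝ) 1))
    (cg : ContinuousOn g (Icc (0 : ℝ) 1))
    (hcomm : ∀ x ∈ Icc (0 : ℝ) 1, f (g x) = g (f x)) :
    ∃ p q : ℝ, p ≤ q ∧ Icc p q ⊆ Icc (0 : ℝ) 1 ∧ MapsTo f (Icc p q) (Icc p q) ∧
      MapsTo g (Icc p q) (Icc p q) ∧ ∀ y ∈ Icc p q, ∃ x ∈ Icc p q, g x = y := by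
  set S : Set (Set ℝ) := {A | A.Nonempty ∧ IsCompact A ∧ A.OrdConnected ∧ A ⊆ Icc (0 : ℝ) 1 ∧
    MapsTo f A A ∧ MapsTo g A A} with hS
  obtain ⟨A, -, hmin⟩ := zorn_superset_nonempty S (by
    intro c hc hchain hne
    refine ⟨⋂₀ c, ⟨?_, ?_, ?_, ?_, ?_, ?_⟩, fun s hs => sInter_subset_of_mem hs⟩
    · have : Nonempty c := hne.to_subtype
      refine IsCompact.nonempty_sInter_of_directed_nonempty_isCompact_isClosed ?_
        (fun U hU => (hc hU).1) (fun U hU => (hc hU).2.1) fun U hU => (hc hU).2.1.isClosed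
      intro U hU V hV
      rcases hchain.total hU hV with h | h
      · exact ⟨U, hU, subset_rfl, h⟩
      · exact ⟨V, hV, h, subset_rfl⟩
    · obtain ⟨U, hU⟩ := hne
      exact (hc hU).2.1.of_isClosed_subset
        (isClosed_sInter fun V hV => (hc hV).2.1.isClosed) (sInter_subset_of_mem hU)
    · exact ordConnected_sInter fun V hV => (hc hV).2.2.1
    · obtain ⟨U, hU⟩ := hne
      exact (sInter_subset_of_mem hU).trans (hc hU).2.2.2.1
    · intro x hx V hV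
      exact (hc hV).2.2.2.2.1 (hx V hV)
    · intro x hx V hV
      exact (hc hV).2.2.2.2.2 (hx V hV)) (Icc (0 : ℝ) 1)
    ⟨⟨0, by simp⟩, isCompact_Icc, ordConnected_Icc, subset_rfl, hf, hg⟩
  obtain ⟨hne, hcomp, hord, hsub, hfA, hgA⟩ := hmin.prop
  have himg : g '' A ∈ S := by
    refine ⟨hne.image g, hcomp.image_of_continuousOn (cg.mono hsub),
      (hord.isPreconnected.image g (cg.mono hsub)).ordConnected,
      (image_subset_iff.mpr hgA).trans hsub, ?_, ?_⟩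
    · rintro _ ⟨y, hy, rfl⟩
      exact ⟨f y, hfA hy, (hcomm y (hsub hy)).symm⟩
    · rintro _ ⟨y, hy, rfl⟩
      exact ⟨g y, hgA hy, rfl⟩
  have hle : A ⊆ g '' A := hmin.le_of_le himg (image_subset_iff.mpr hgA)
  have hAeq := eq_Icc_of_connected_compact ⟨hne, hord.isPreconnected⟩ hcomp
  refine ⟨sInf A, sSup A, csInf_le_csSup hne hcomp.bddBelow hcomp.bddAbove, ?_, ?_, ?_, ?_⟩
  · rw [← hAeq]; exact hsub
  · rw [← hAeq]; exact hfA
  · rw [← hAeq]; exact hgA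
  · rw [← hAeq]
    intro y hy
    obtain ⟨x, hx, h⟩ := hle hy
    exact ⟨x, hx, h⟩

/-- no critical point inside: strictly monotone -/
lemma mono_of_no_crit {f : ℝ → ℝ} (df : DifferentiableOn ℝ f (Icc (0 : ℝ) 1)) {u v : ℝ}
    (hu : 0 ≤ u) (huv : u ≤ v) (hv : v ≤ 1)
    (hno : ∀ c, u < c → c < v → derivWithin f (Icc (0 : ℝ) 1) c ≠ 0) :
    StrictMonoOn f (Icc u v) ∨ StrictAntiOn f (Icc u v) := by
  have hsub : Icc u v ⊆ Icc (0 : ℝ) 1 := Icc_subset_Icc hu hv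
  have hc : ContinuousOn f (Icc u v) := df.continuousOn.mono hsub
  have key : ∀ x ∈ Icc u v, ∀ y ∈ Icc u v, x < y → f x ≠ f y := by
    intro x hx y hy hxy heq
    obtain ⟨c, hcm, hcd⟩ := exists_deriv_eq_zero hxy (hc.mono (Icc_subset_Icc hx.1 hy.2)) heq
    have h1 : u < c := hx.1.trans_lt hcm.1
    have h2 : c < v := hcm.2.trans_le hy.2
    apply hno c h1 h2
    rw [derivWithin_of_mem_nhds (Icc_mem_nhds (hu.trans_lt h1) (h2.trans_le hv))]
    exact hcd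
  refine ContinuousOn.strictMonoOn_of_injOn_Icc' huv hc ?_
  intro x hx y hy h
  rcases lt_trichotomy x y with h1 | h1 | h1
  · exact absurd h (key x hx y hy h1)
  · exact h1
  · exact absurd h.symm (key y hy x hx h1)

theorem main {f g : ℝ → ℝ}
    (hf : MapsTo f (Icc (0 : ℝ) 1) (Icc (0 : ℝ) 1)) (hg : MapsTo g (Icc (0 : ℝ) 1) (Icc (0 : ℝ) 1))
    (df : DifferentiableOn ℝ f (Icc (0 : ℝ) 1)) (dg : DifferentiableOn ℝ g (Icc (0 : ℝ) 1))
    (hcomm : ∀ x ∈ Icc (0 : ℝ) 1, f (g x) = g (f x))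
    (hfin : {x | x ∈ Icc (0 : ℝ) 1 ∧ derivWithin f (Icc (0 : ℝ) 1) x = 0}.Finite)
    (hval : ∀ x ∈ Icc (0 : ℝ) 1, derivWithin f (Icc (0 : ℝ) 1) (g x) = 0 →
      derivWithin g (Icc (0 : ℝ) 1) (f x) = 0 → derivWithin f (Icc (0 : ℝ) 1) x = 0) :
    ∃ x ∈ Icc (0 : ℝ) 1, f x = x ∧ g x = x := by
  classical
  -- chain rule
  have hchain : ∀ x ∈ Icc (0 : ℝ) 1, derivWithin f (Icc (0 : ℝ) 1) (g x) = 0 →
      derivWithin f (Icc (0 : ℝ) 1) x = 0 := by
    intro x hx h0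
    by_contra hne
    apply hne
    refine hval x hx h0 ?_
    have h1 := derivWithin_comp x (df _ (hg hx)) (dg x hx) hg
    have h2 := derivWithin_comp x (dg _ (hf hx)) (df x hx) hf
    have h3 : derivWithin (f ∘ g) (Icc (0 : ℝ) 1) x = derivWithin (g ∘ f) (Icc (0 : ℝ) 1) x :=
      derivWithin_congr (fun y hy => hcomm y hy) (hcomm x hx)
    rw [h1, h2, h0, zero_mul] at h3
    rcases mul_eq_zero.mp h3.symm with h4 | h4
    · exact h4
    · exact absurd h4 hne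
  obtain ⟨p, q, hpq, hsub, hfL, hgL, hsurj⟩ :=
    exists_minimal_interval hf hg dg.continuousOn hcomm
  rcases eq_or_lt_of_le hpq with rfl | hlt
  · have hp : p ∈ Icc p p := left_mem_Icc.mpr le_rfl
    have h1 := hfL hp
    have h2 := hgL hp
    rw [Icc_self, mem_singleton_iff] at h1 h2
    exact ⟨p, hsub hp, h1, h2⟩
  have hp0 : 0 ≤ p := (hsub (left_mem_Icc.mpr hpq)).1
  have hq1 : q ≤ 1 := (hsub (right_mem_Icc.mpr hpq)).2
  obtain ⟨w, hw, h1, h2⟩ := core hlt (df.continuousOn.mono hsub) (dg.continuousOn.mono hsub)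
    hfL hgL hsurj (fun y hy => hcomm y (hsub hy)) (hfin.toFinset.filter fun c => c ∈ Icc p q)
    (fun c hc => (Finset.mem_filter.mp hc).2)
    (by
      intro x hx hgx
      rw [Finset.mem_filter, Set.Finite.mem_toFinset] at hgx ⊢
      exact ⟨⟨hsub hx, hchain x (hsub hx) hgx.1.2⟩, hx⟩)
    (by
      intro u v hu huv hv hno
      refine mono_of_no_crit df (hp0.trans hu) huv (hv.trans hq1) fun c h1 h2 h3 => ?_
      refine hno c ?_ ⟨h1, h2⟩
      rw [Finset.mem_filter, Set.Finite.mem_toFinset]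
      have hcpq : c ∈ Icc p q := ⟨hu.trans h1.le, h2.le.trans hv⟩
      exact ⟨⟨hsub hcpq, h3⟩, hcpq⟩)
  exact ⟨w, hsub hw, h1, h2⟩

end Pool.Agent.CommMaps
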